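import Pool.Agent.helper52.OC.SpecA

set_option autoImplicit false

namespace OC

theorem OCE_pn {G : Type} [Group G] {N : Subgroup G} {P : Set G} (hP : QCone N P) (a : G) (ha : a ∈ P) (n : G) (hn : n ∈ N) :
    n * a ∈ P := by
  have h1 : n * a ∉ N := fun h => hP.dis a ha ((Subgroup.mul_mem_cancel_left N hn).mp h)
  rcases hP.tri _ h1 with h | h
  · exact h
  · exfalso
    have h2 := hP.mul a ha _ h
    rw [mul_inv_rev, mul_inv_cancel_left] at h2
    exact hP.dis _ h2 (N.inv_mem hn)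

theorem OCE_pow {G : Type} [Group G] {N : Subgroup G} {P : Set G} (hP : QCone N P) (a : G) (ha : a ∈ P) (k : ℕ) :
    a ^ (k + 1) ∈ P := by
  induction k with
  | zero => simpa using ha
  | succ n ih =>
    rw [pow_succ]
    exact hP.mul _ ih _ ha

/-- the core: `g ∈ P`, `γ = a⁻¹ g⁻¹ a g ∈ P` is impossible. -/
theorem OCE_core {G : Type} [Group G] {N : Subgroup G} {P : Set G} {A : Subgroup G} (_hN : N.Normal) (hP : QCone N P)
    (hD : ∀ D : Subgroup G, N ≤ D → Cvx P D → D = ⊤ ∨ D = N) (hA : A.Normal) (hc : ∀ a ∈ A, ∀ b ∈ A, a * b = b * a)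
    (a : G) (ha : a ∈ A) (g : G) (hg : g ∈ P) (hγ : a⁻¹ * cj a g ∈ P) : False := by
  set γ : G := a⁻¹ * cj a g with hγd
  have hcjA : cj a g ∈ A := by
    have := hA.conj_mem a ha g⁻¹
    rwa [inv_inv] at this
  have hγA : γ ∈ A := A.mul_mem (A.inv_mem ha) hcjA
  have hag : g⁻¹ * a * g = a * γ := by
    rw [hγd, mul_inv_cancel_left]
    rfl
  have hcom : Commute a γ := hc a ha γ hγA
  have hpow : ∀ k : ℕ, g⁻¹ * a ^ k * g = a ^ k * γ ^ k := by
    intro k
    rw [← hcom.mul_pow, ← hag]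
    have := conj_pow (a := g⁻¹) (b := a) (i := k)
    rw [inv_inv] at this
    exact this.symm
  have hlt : ∀ k : ℕ, (γ ^ k)⁻¹ * g ∈ P := by
    intro k
    have h1 : γ ^ k = (a ^ k)⁻¹ * (g⁻¹ * a ^ k * g) := by
      rw [hpow k, inv_mul_cancel_left]
    have h2 : (γ ^ k)⁻¹ * g = g⁻¹ * ((a ^ k)⁻¹ * g * a ^ k) * g := by
      rw [h1]
      group
    rw [h2]
    exact hP.conj _ (hP.conj g hg (a ^ k)) g
  have one_notin : (1 : G) ∉ P := fun h => hP.dis 1 h N.one_mem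
  let D : Subgroup G :=
    { carrier := {h | ∃ k : ℕ, h⁻¹ * γ ^ k ∈ P ∧ h * γ ^ k ∈ P}
      mul_mem' := by
        rintro x y ⟨k, hk1, hk2⟩ ⟨l, hl1, hl2⟩
        refine ⟨k + l, ?_, ?_⟩
        · have h1 : (x * y)⁻¹ * γ ^ (k + l) = (y⁻¹ * (x⁻¹ * γ ^ k) * y) * (y⁻¹ * γ ^ l) := by
            rw [pow_add]
            group
          rw [h1]
          exact hP.mul _ (hP.conj _ hk1 y) _ hl1
        · have h1 : x * y * γ ^ (k + l) = ((x⁻¹)⁻¹ * (y * γ ^ l) * x⁻¹) * (x * γ ^ k) := by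
            rw [add_comm, pow_add]
            group
          rw [h1]
          exact hP.mul _ (hP.conj _ hl2 x⁻¹) _ hk2
      one_mem' := by
        refine ⟨1, ?_, ?_⟩
        · simpa using hγ
        · simpa using hγ
      inv_mem' := by
        rintro x ⟨k, hk1, hk2⟩
        refine ⟨k, ?_, hk1⟩
        rwa [inv_inv] }
  have hmemD : ∀ h : G, h ∈ D ↔ ∃ k : ℕ, h⁻¹ * γ ^ k ∈ P ∧ h * γ ^ k ∈ P := fun h => Iff.rfl
  have hND : N ≤ D := by
    intro n hn
    rw [hmemD]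
    refine ⟨1, ?_, ?_⟩
    · rw [pow_one]
      exact OCE_pn hP γ hγ _ (N.inv_mem hn)
    · rw [pow_one]
      exact OCE_pn hP γ hγ _ hn
  have hconv : Cvx P D := by
    intro x hx y hy hxy
    rw [hmemD] at hxy ⊢
    obtain ⟨k, hk1, hk2⟩ := hxy
    refine ⟨k, ?_, ?_⟩
    · have h1 : x⁻¹ * γ ^ k = y * ((x * y)⁻¹ * γ ^ k) := by group
      rw [h1]
      exact hP.mul _ hy _ hk1
    · rcases k with _ | k
      · simpa using hx
      · exact hP.mul _ hx _ (OCE_pow hP γ hγ k)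
  have hγD : γ ∈ D := by
    rw [hmemD]
    refine ⟨2, ?_, ?_⟩
    · have h1 : γ⁻¹ * γ ^ 2 = γ := by group
      rw [h1]
      exact hγ
    · have h1 : γ * γ ^ 2 = γ ^ (2 + 1) := by group
      rw [h1]
      exact OCE_pow hP γ hγ 2
  have hgD : g ∉ D := by
    rw [hmemD]
    rintro ⟨k, hk1, -⟩
    have h1 := hP.mul _ hk1 _ (hlt k)
    have h2 : g⁻¹ * γ ^ k * ((γ ^ k)⁻¹ * g) = 1 := by group
    rw [h2] at h1
    exact one_notin h1
  rcases hD D hND hconv with h | h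
  · apply hgD
    rw [h]
    exact Subgroup.mem_top g
  · rw [h] at hγD
    exact hP.dis _ hγ hγD

theorem OCE : OCE_stmt := by
  intro G _ N P A hN hP hD hA hc a ha g
  by_contra hcon
  have hstep : ∀ a ∈ A, ∀ g ∈ P, a⁻¹ * cj a g ∈ N := by
    intro a ha g hg
    by_contra hc1
    rcases hP.tri _ hc1 with h | h
    · exact OCE_core hN hP hD hA hc a ha g hg h
    · have hcjA : cj a g ∈ A := by
        have := hA.conj_mem a ha g⁻¹
        rwa [inv_inv] at this
      apply OCE_core hN hP hD hA hc a⁻¹ (A.inv_mem ha) g hg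
      have h1 : (a⁻¹)⁻¹ * cj a⁻¹ g = (a⁻¹ * cj a g)⁻¹ := by
        have h2 : cj a⁻¹ g = (cj a g)⁻¹ := by
          unfold cj
          group
        rw [h2, mul_inv_rev, inv_inv]
        have h3 := hc a ha _ (A.inv_mem hcjA)
        rw [h3]
      rw [h1]
      exact h
  by_cases hgN : g ∈ N
  · apply hcon
    have h1 : a⁻¹ * cj a g = (a⁻¹ * g⁻¹ * (a⁻¹)⁻¹) * g := by
      unfold cj
      group
    rw [h1]
    exact N.mul_mem (hN.conj_mem _ (N.inv_mem hgN) _) hgN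
  · rcases hP.tri g hgN with h | h
    · exact hcon (hstep a ha g h)
    · have h1 := hstep a ha g⁻¹ h
      apply hcon
      have h2 : a⁻¹ * cj a g = (g⁻¹ * (a⁻¹ * cj a g⁻¹) * (g⁻¹)⁻¹)⁻¹ := by
        unfold cj
        group
      rw [h2]
      exact N.inv_mem (hN.conj_mem _ h1 _)

end OC
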